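import Pool.Agent.Helper18.EW.Goals4

set_option autoImplicit false

namespace Pool.Agent.Helper34.EW

open Finset
open Pool.Agent.Lead.Sh
open Pool.Agent.Helper18.EW

/-- polynomial entries -/
noncomputable def EP (o d : ℕ × ℕ) (x y : Polynomial ℂ) : Polynomial ℂ :=
  Polynomial.C ((d.1.choose o.1 : ℂ) * (d.2.choose o.2 : ℂ)) * x ^ (d.1 - o.1) * y ^ (d.2 - o.2)

lemma EP_eval (o d : ℕ × ℕ) (x y : Polynomial ℂ) (e : ℂ) :
    (EP o d x y).eval e = E o d (x.eval e) (y.eval e) := by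
  simp [EP, E]

lemma injPoly (D : Finset (ℕ × ℕ)) (R : Finset Row) (Q : ℕ → Polynomial ℂ × Polynomial ℂ) (e0 : ℂ)
    (h : InjAt D R (fun k => ((Q k).1.eval e0, (Q k).2.eval e0))) :
    ∃ g : Polynomial ℂ, g ≠ 0 ∧
      ∀ e, g.eval e ≠ 0 → InjAt D R (fun k => ((Q k).1.eval e, (Q k).2.eval e)) := by
  classical
  have key : ∀ e : ℂ, (∀ c : D → ℂ, (∀ i : R, ∑ k : D, c k *
      (Polynomial.aeval e) (EP i.1.2 k.1 (Q i.1.1).1 (Q i.1.1).2) = 0) → c = 0) ↔
      InjAt D R (fun k => ((Q k).1.eval e, (Q k).2.eval e)) := by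
    intro e
    constructor
    · intro hM c hc d hd
      have h1 := hM (fun k => c k.1) (by
        intro i
        have h2 := hc i.1 i.2
        rw [← sum_coe_sort D] at h2
        rw [← h2]
        apply sum_congr rfl
        intro k _
        rw [Polynomial.coe_aeval_eq_eval, EP_eval])
      exact congrFun h1 ⟨d, hd⟩
    · intro hI c hc
      have h1 := hI (fun d => if hd : d ∈ D then c ⟨d, hd⟩ else 0) (by
        intro r hr
        have h2 := hc ⟨r, hr⟩
        rw [← sum_coe_sort D, ← h2]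
        apply sum_congr rfl
        intro k _
        rw [Polynomial.coe_aeval_eq_eval, EP_eval]
        simp)
      funext k
      have h3 := h1 k.1 k.2
      simpa using h3
  obtain ⟨g, hg0, hg⟩ := gen_inj (fun (i : R) (k : D) => EP i.1.2 k.1 (Q i.1.1).1 (Q i.1.1).2)
    (Polynomial.aeval e0) ((key e0).2 h)
  refine ⟨g, ?_, ?_⟩
  · rintro rfl
    simp at hg0
  · intro e he
    apply (key e).1
    apply hg (Polynomial.aeval e)
    rw [Polynomial.coe_aeval_eq_eval]
    exact he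

lemma indPoly (D : Finset (ℕ × ℕ)) (R : Finset Row) (Q : ℕ → Polynomial ℂ × Polynomial ℂ) (e0 : ℂ)
    (h : IndAt D R (fun k => ((Q k).1.eval e0, (Q k).2.eval e0))) :
    ∃ g : Polynomial ℂ, g ≠ 0 ∧
      ∀ e, g.eval e ≠ 0 → IndAt D R (fun k => ((Q k).1.eval e, (Q k).2.eval e)) := by
  classical
  have key : ∀ e : ℂ, (∀ c : R → ℂ, (∀ i : D, ∑ k : R, c k *
      (Polynomial.aeval e) (EP k.1.2 i.1 (Q k.1.1).1 (Q k.1.1).2) = 0) → c = 0) ↔
      IndAt D R (fun k => ((Q k).1.eval e, (Q k).2.eval e)) := by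
    intro e
    constructor
    · intro hM c hc d hd
      have h1 := hM (fun k => c k.1) (by
        intro i
        have h2 := hc i.1 i.2
        rw [← sum_coe_sort R] at h2
        rw [← h2]
        apply sum_congr rfl
        intro k _
        rw [Polynomial.coe_aeval_eq_eval, EP_eval])
      exact congrFun h1 ⟨d, hd⟩
    · intro hI c hc
      have h1 := hI (fun d => if hd : d ∈ R then c ⟨d, hd⟩ else 0) (by
        intro r hr
        have h2 := hc ⟨r, hr⟩
        rw [← sum_coe_sort R, ← h2]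
        apply sum_congr rfl
        intro k _
        rw [Polynomial.coe_aeval_eq_eval, EP_eval]
        simp)
      funext k
      have h3 := h1 k.1 k.2
      simpa using h3
  obtain ⟨g, hg0, hg⟩ := gen_inj (fun (i : D) (k : R) => EP k.1.2 i.1 (Q k.1.1).1 (Q k.1.1).2)
    (Polynomial.aeval e0) ((key e0).2 h)
  refine ⟨g, ?_, ?_⟩
  · rintro rfl
    simp at hg0
  · intro e he
    apply (key e).1
    apply hg (Polynomial.aeval e)
    rw [Polynomial.coe_aeval_eq_eval]
    exact he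

lemma exists_eval_ne (g : Polynomial ℂ) (hg : g ≠ 0) : ∃ e : ℂ, g.eval e ≠ 0 := by
  by_contra hcon
  push Not at hcon
  exact hg (Polynomial.funext (fun r => by rw [hcon r, Polynomial.eval_zero]))

/-- points on the line through `P1` and `P2` -/
noncomputable def Ql (P1 P2 : ℕ → ℂ × ℂ) (k : ℕ) : Polynomial ℂ × Polynomial ℂ :=
  (Polynomial.C (P1 k).1 * (1 - Polynomial.X) + Polynomial.C (P2 k).1 * Polynomial.X,
    Polynomial.C (P1 k).2 * (1 - Polynomial.X) + Polynomial.C (P2 k).2 * Polynomial.X)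

lemma Ql_zero (P1 P2 : ℕ → ℂ × ℂ) :
    (fun k => ((Ql P1 P2 k).1.eval 0, (Ql P1 P2 k).2.eval 0)) = P1 := by
  funext k
  simp [Ql]

lemma Ql_one (P1 P2 : ℕ → ℂ × ℂ) :
    (fun k => ((Ql P1 P2 k).1.eval 1, (Ql P1 P2 k).2.eval 1)) = P2 := by
  funext k
  simp [Ql]

theorem goalCP : GoalCP := by
  classical
  refine ⟨?_, ?_⟩
  · rintro D D' R R' ⟨P1, h1⟩ ⟨P2, h2⟩
    rw [← Ql_zero P1 P2] at h1
    rw [← Ql_one P1 P2] at h2
    obtain ⟨g1, hg1, k1⟩ := indPoly D R (Ql P1 P2) 0 h1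
    obtain ⟨g2, hg2, k2⟩ := injPoly D' R' (Ql P1 P2) 1 h2
    obtain ⟨e, he⟩ := exists_eval_ne (g1 * g2) (mul_ne_zero hg1 hg2)
    rw [Polynomial.eval_mul] at he
    exact ⟨_, k1 e (left_ne_zero_of_mul he), k2 e (right_ne_zero_of_mul he)⟩
  · rintro D R ⟨P1, h1⟩
    set P2 : ℕ → ℂ × ℂ := fun _ => (1, 0) with hP2
    rw [← Ql_zero P1 P2] at h1
    obtain ⟨g1, hg1, k1⟩ := injPoly D R (Ql P1 P2) 0 h1
    have hne : ∀ k, (Ql P1 P2 k).1 ≠ 0 := by
      intro k hk
      have := congrArg (fun q : Polynomial ℂ => q.eval 1) hk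
      simp [Ql, hP2] at this
    have hprod : (∏ k ∈ R.image Prod.fst, (Ql P1 P2 k).1) ≠ 0 :=
      prod_ne_zero_iff.2 (fun k _ => hne k)
    obtain ⟨e, he⟩ := exists_eval_ne _ (mul_ne_zero hg1 hprod)
    rw [Polynomial.eval_mul, Polynomial.eval_prod] at he
    have he1 := left_ne_zero_of_mul he
    have he2 := prod_ne_zero_iff.1 (right_ne_zero_of_mul he)
    have k2 := k1 e he1
    refine ⟨fun k => if k ∈ R.image Prod.fst then
      ((Ql P1 P2 k).1.eval e, (Ql P1 P2 k).2.eval e) else (1, 0), ?_, ?_⟩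
    · intro c hc d hd
      refine k2 c ?_ d hd
      intro r hr
      have h3 := hc r hr
      beta_reduce at h3 ⊢
      rw [if_pos (mem_image_of_mem _ hr)] at h3
      exact h3
    · intro k
      beta_reduce
      by_cases hk : k ∈ R.image Prod.fst
      · rw [if_pos hk]
        exact he2 k hk
      · rw [if_neg hk]
        simp

end Pool.Agent.Helper34.EW
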