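import Pool.Agent.Helper18.EW.Goals2

/-! PA of project EW. -/

set_option autoImplicit false

namespace Pool.Agent.Helper34.EW

open Finset Pool.Agent.Helper18.EW

theorem goalPA : GoalPA := by
  intro R C r δ rk sl hr hδ hsl
  obtain ⟨D0, hD1, hD2⟩ : ∃ D0 : ℕ, (∀ t < R, δ t ≤ D0) ∧ ∀ c < C, sl c ≤ D0 := by
    refine ⟨∑ t ∈ range R, δ t + ∑ c ∈ range C, sl c, ?_, ?_⟩
    · intro t ht
      have := Finset.single_le_sum (f := δ) (fun i _ => Nat.zero_le _) (Finset.mem_range.2 ht)
      omega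
    · intro c hc
      have := Finset.single_le_sum (f := sl) (fun i _ => Nat.zero_le _) (Finset.mem_range.2 hc)
      omega
  obtain ⟨M, hM1, hM2⟩ : ∃ M : ℕ, (∀ t < R, r t ≤ M) ∧ ∀ c < C, rk c ≤ M := by
    refine ⟨∑ t ∈ range R, r t + ∑ c ∈ range C, rk c, ?_, ?_⟩
    · intro t ht
      have := Finset.single_le_sum (f := r) (fun i _ => Nat.zero_le _) (Finset.mem_range.2 ht)
      omega
    · intro c hc
      have := Finset.single_le_sum (f := rk) (fun i _ => Nat.zero_le _) (Finset.mem_range.2 hc)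
      omega
  have hmono : ∀ y z, y ≤ z → z < R → r y ≤ r z := by
    intro y z hyz hz
    induction z, hyz using Nat.le_induction with
    | base => exact le_rfl
    | succ z hyz ih => exact (ih (by omega)).trans (hr z hz)
  set B : ℕ := R * D0 + 1 with hB
  have hB1 : 1 ≤ B := by omega
  refine ⟨fun y => ((∑ t ∈ range y, δ t * B ^ (M - r t) : ℕ) : ℤ),
    fun c => ((sl c * B ^ (M - rk c) : ℕ) : ℤ), ?_⟩
  intro c hc y z hyz hz
  set U : ℕ := B ^ (M - rk c) with hU
  have hU1 : 1 ≤ U := Nat.one_le_pow _ _ hB1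
  set S : ℕ := ∑ t ∈ Ico y z, δ t * B ^ (M - r t) with hS
  have hsplit : ∑ t ∈ range z, δ t * B ^ (M - r t) =
      ∑ t ∈ range y, δ t * B ^ (M - r t) + S := by
    rw [hS, Finset.range_eq_Ico, Finset.range_eq_Ico,
      Finset.sum_Ico_consecutive _ (Nat.zero_le y) hyz.le]
  obtain ⟨k, rfl⟩ : ∃ k, z = y + k := ⟨z - y, by omega⟩
  have hk : y + k - y = k := by omega
  rw [hk]
  have key1 : sl c * U * k < S →
      ((∑ t ∈ range y, δ t * B ^ (M - r t) : ℕ) : ℤ) - ((sl c * U : ℕ) : ℤ) * (y : ℤ) <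
      ((∑ t ∈ range (y + k), δ t * B ^ (M - r t) : ℕ) : ℤ) -
        ((sl c * U : ℕ) : ℤ) * ((y + k : ℕ) : ℤ) := by
    intro h
    have h' : ((sl c * U : ℕ) : ℤ) * (k : ℤ) < (S : ℤ) := by exact_mod_cast h
    rw [hsplit, Nat.cast_add _ S, Nat.cast_add y k, mul_add]
    linarith
  have key2 : S < sl c * U * k →
      ((∑ t ∈ range (y + k), δ t * B ^ (M - r t) : ℕ) : ℤ) -
        ((sl c * U : ℕ) : ℤ) * ((y + k : ℕ) : ℤ) <
      ((∑ t ∈ range y, δ t * B ^ (M - r t) : ℕ) : ℤ) - ((sl c * U : ℕ) : ℤ) * (y : ℤ) := by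
    intro h
    have h' : (S : ℤ) < ((sl c * U : ℕ) : ℤ) * (k : ℤ) := by exact_mod_cast h
    rw [hsplit, Nat.cast_add _ S, Nat.cast_add y k, mul_add]
    linarith
  have hslk : sl c * k ≤ R * D0 := by
    calc sl c * k ≤ D0 * R := Nat.mul_le_mul (hD2 c hc) (by omega)
      _ = R * D0 := Nat.mul_comm _ _
  -- the rest of the sum
  have hrest : rk c ≤ r y →
      ∃ A T : ℕ, A = ∑ t ∈ (Ico y (y + k)).filter (fun t => r t = rk c), δ t ∧ T < U ∧
        S = A * U + T := by
    intro hle
    refine ⟨_, ∑ t ∈ (Ico y (y + k)).filter (fun t => ¬ r t = rk c), δ t * B ^ (M - r t), rfl,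
      ?_, ?_⟩
    · have h1 : (∑ t ∈ (Ico y (y + k)).filter (fun t => ¬ r t = rk c), δ t * B ^ (M - r t)) * B ≤
          ∑ t ∈ (Ico y (y + k)).filter (fun t => ¬ r t = rk c), D0 * U := by
        rw [Finset.sum_mul]
        apply Finset.sum_le_sum
        intro t ht
        rw [Finset.mem_filter, Finset.mem_Ico] at ht
        obtain ⟨⟨ht1, ht2⟩, ht3⟩ := ht
        have h2 : rk c < r t := lt_of_le_of_ne (hle.trans (hmono y t ht1 (by omega)))
          (fun h => ht3 h.symm)
        have h3 := hM1 t (by omega)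
        rw [mul_assoc, ← pow_succ]
        apply Nat.mul_le_mul (hD1 t (by omega))
        exact Nat.pow_le_pow_right hB1 (by omega)
      rw [Finset.sum_const, smul_eq_mul] at h1
      have h4 : ((Ico y (y + k)).filter (fun t => ¬ r t = rk c)).card ≤ R := by
        calc ((Ico y (y + k)).filter (fun t => ¬ r t = rk c)).card ≤ (Ico y (y + k)).card :=
              Finset.card_filter_le _ _
          _ = k := by rw [Nat.card_Ico]; omega
          _ ≤ R := by omega
      by_contra hcon
      push Not at hcon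
      have h5 : U * B ≤ R * (D0 * U) :=
        (Nat.mul_le_mul_right B hcon).trans (h1.trans (Nat.mul_le_mul_right _ h4))
      have h6 : R * (D0 * U) = U * (R * D0) := by ring
      rw [h6] at h5
      have h7 := Nat.le_of_mul_le_mul_left h5 hU1
      omega
    · rw [hS, ← Finset.sum_filter_add_sum_filter_not (Ico y (y + k)) (fun t => r t = rk c)]
      congr 1
      rw [Finset.sum_mul]
      apply Finset.sum_congr rfl
      intro t ht
      rw [Finset.mem_filter] at ht
      rw [ht.2]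
  refine ⟨?_, ?_, ?_⟩
  · intro h
    apply key1
    have h1 : B * U ≤ B ^ (M - r y) := by
      rw [hU, ← pow_succ']
      have := hM2 c hc
      exact Nat.pow_le_pow_right hB1 (by omega)
    have h2 : B ^ (M - r y) ≤ S := by
      have h3 : δ y * B ^ (M - r y) ≤ S :=
        Finset.single_le_sum (f := fun t => δ t * B ^ (M - r t)) (fun i _ => Nat.zero_le _)
          (Finset.mem_Ico.2 ⟨le_rfl, hyz⟩)
      have h4 := Nat.mul_le_mul_right (B ^ (M - r y)) (hδ y)
      omega
    have h3 : sl c * U * k = (sl c * k) * U := by ring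
    rw [h3]
    calc sl c * k * U ≤ (R * D0) * U := Nat.mul_le_mul_right _ hslk
      _ < B * U := Nat.mul_lt_mul_of_pos_right (by omega) hU1
      _ ≤ S := h1.trans h2
  · intro h hA
    obtain ⟨A, T, hAe, hT, hST⟩ := hrest h
    rw [← hAe] at hA
    apply key1
    rw [hST]
    have h3 : sl c * U * k = (sl c * k) * U := by ring
    rw [h3]
    have h4 := Nat.mul_lt_mul_of_pos_right hA hU1
    omega
  · intro h hA
    obtain ⟨A, T, hAe, hT, hST⟩ := hrest h
    rw [← hAe] at hA
    apply key2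
    rw [hST]
    have h3 : sl c * U * k = (sl c * k) * U := by ring
    rw [h3]
    have h4 := Nat.mul_le_mul_right U hA
    have h5 : (A + 1) * U = A * U + U := by ring
    have h6 : A.succ * U = A * U + U := by rw [Nat.succ_eq_add_one]; exact h5
    omega

end Pool.Agent.Helper34.EW
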